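import Pool.Agent.Helper34.EC.Defs
import Pool.Agent.Helper42.Window

/-!
# Project EC, D5: near-Nagata for every `g ≥ 10`
-/

set_option autoImplicit false

namespace Pool.Agent.Helper28.EC

open Pool.Agent.Helper34.EC Pool.Agent.Helper42.Game

/-- EC-D5 -/
theorem near_nagata (g : ℕ) (hg : 10 ≤ g) : ∃ C₀ : ℝ, ∀ m d : ℕ, 1 ≤ m →
    (d : ℝ) ≤ (√g - 1 / (2 * (g - 2) * √g)) * m - C₀ →
    Pool.Agent.Helper41.Fat.Good ℚ g m (fun j => d + 1 - j) ((d + 2).choose 2) := by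
  obtain ⟨p, hp2, hpg, hpar⟩ : ∃ p, 2 ≤ p ∧ p ^ 2 ≤ g ∧ p % 2 = g % 2 := by
    rcases Nat.mod_two_eq_zero_or_one g with h | h
    · exact ⟨2, le_rfl, by omega, by omega⟩
    · exact ⟨3, by omega, by omega, by omega⟩
  refine ⟨3 / 2 + √(g : ℝ) / 2, fun m d hm hd => ?_⟩
  refine window_empty g p m d hg hp2 hpg hpar hm ?_
  have hm1 : (1 : ℝ) ≤ m := by exact_mod_cast hm
  have hp0 : (0 : ℝ) ≤ p := Nat.cast_nonneg p
  have hS0 : 0 ≤ √(g : ℝ) := Real.sqrt_nonneg _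
  have h1 : √(g : ℝ) / (2 * m) ≤ √(g : ℝ) / 2 :=
    div_le_div_of_nonneg_left hS0 (by norm_num) (by linarith)
  have h2 : (√(g : ℝ) - 1 / (2 * ((g : ℝ) - 2) * √(g : ℝ))) * m =
      √(g : ℝ) * m - m / (2 * ((g : ℝ) - 2) * √(g : ℝ)) := by
    ring
  rw [h2] at hd
  linarith

end Pool.Agent.Helper28.EC
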