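import Pool.Agent.Helper34.EC.Defs
import Pool.Agent.Helper7.NtAsym
import Pool.Agent.Helper7.FreeChain

/-!
# Project EC, D6: near-Nagata with power saving
-/

set_option autoImplicit false

namespace Pool.Agent.Helper28.EC

open Pool.Agent.Helper34.EC Pool.Agent.Helper7.Nt

theorem toChain {x : ℝ} (h : Chain x) : Pool.Agent.Helper42.Game.Chain 1 x := by
  induction h with
  | one => exact Pool.Agent.Helper42.Game.Chain.base
  | step l _ h2 ih => exact ih.div one_pos h2.le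

/-- Chain values very close to `√r`, in the form used below. -/
theorem exists_near (N : ℕ) : ∃ r₀ : ℕ, 2 ≤ r₀ ∧ ∀ r ≥ r₀, ∃ x : ℝ, Chain x ∧ x ≤ √r ∧
    √r - 1 / (r : ℝ) ^ N < x ∧ r ≤ (√r + 1 / (r : ℝ) ^ N) * x := by
  obtain ⟨r1, hr1⟩ := exists_chain (N + 2)
  refine ⟨max r1 2, le_max_right _ _, fun r hr => ?_⟩
  obtain ⟨x, hx, h1, h2⟩ := hr1 r (le_trans (le_max_left _ _) hr)
  have hr2 : 2 ≤ r := le_trans (le_max_right _ _) hr
  have hrR : (2 : ℝ) ≤ r := by exact_mod_cast hr2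
  have hr0 : (0 : ℝ) < r := by linarith
  have hx0 : 0 < x := by linarith [hx.one_le]
  have hs1 : 1 ≤ √(r : ℝ) := Real.one_le_sqrt.mpr (by linarith)
  have hs0 : 0 < √(r : ℝ) := by linarith
  have hsr : √(r : ℝ) * √(r : ℝ) = r := Real.mul_self_sqrt hr0.le
  have hlog : Real.log r = 2 * Real.log √(r : ℝ) := by
    rw [Real.log_sqrt hr0.le]
    ring
  rw [hlog] at h1 h2
  have hp0 : 0 < 1 / (r : ℝ) ^ (N + 2) := by positivity
  have hpN : 1 / (r : ℝ) ^ (N + 2) * r * 2 ≤ 1 / (r : ℝ) ^ N := by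
    have h3 : 1 / (r : ℝ) ^ (N + 2) * r * 2 = 1 / (r : ℝ) ^ N * (2 / r) := by
      rw [pow_add]
      field_simp
    rw [h3]
    apply mul_le_of_le_one_right (by positivity)
    rw [div_le_one hr0]
    exact hrR
  have hsle : √(r : ℝ) ≤ r := by nlinarith
  have hxs : x ≤ √(r : ℝ) := (Real.log_le_log_iff hx0 hs0).mp (by linarith)
  -- `x ≥ √r (1 - p)`
  have hlow : √(r : ℝ) * (1 - 1 / (r : ℝ) ^ (N + 2) / 2) ≤ x := by
    have h3 : Real.log √(r : ℝ) - Real.log x ≤ 1 / (r : ℝ) ^ (N + 2) / 2 := by linarith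
    have h4 : Real.log (x / √(r : ℝ)) = -(Real.log √(r : ℝ) - Real.log x) := by
      rw [Real.log_div hx0.ne' hs0.ne']
      ring
    have h5 := Real.add_one_le_exp (Real.log (x / √(r : ℝ)))
    rw [Real.exp_log (by positivity), h4] at h5
    have h6 : 1 - 1 / (r : ℝ) ^ (N + 2) / 2 ≤ x / √(r : ℝ) := by linarith
    calc √(r : ℝ) * (1 - 1 / (r : ℝ) ^ (N + 2) / 2) ≤ √(r : ℝ) * (x / √(r : ℝ)) :=
          mul_le_mul_of_nonneg_left h6 hs0.le
      _ = x := by field_simp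
  set p := 1 / (r : ℝ) ^ (N + 2) with hp
  set q := 1 / (r : ℝ) ^ N with hq
  have hq0 : 0 < q := by rw [hq]; positivity
  have hq1 : q ≤ 1 := by
    rw [hq, div_le_one (by positivity)]
    exact one_le_pow₀ (by linarith)
  have hsp : √(r : ℝ) * p ≤ p * r := by
    rw [mul_comm]
    exact mul_le_mul_of_nonneg_left hsle hp0.le
  have hlow2 : √(r : ℝ) - q / 4 ≤ x := by
    have : √(r : ℝ) * (1 - p / 2) = √(r : ℝ) - √(r : ℝ) * p / 2 := by ring
    rw [this] at hlow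
    linarith
  refine ⟨x, hx, hxs, by linarith, ?_⟩
  have h7 : (√(r : ℝ) + q) * (√(r : ℝ) - q / 4) ≤ (√(r : ℝ) + q) * x :=
    mul_le_mul_of_nonneg_left hlow2 (by positivity)
  have h8 : (√(r : ℝ) + q) * (√(r : ℝ) - q / 4) = r + q * (3 * √(r : ℝ) - q) / 4 := by
    have : (√(r : ℝ) + q) * (√(r : ℝ) - q / 4) =
      √(r : ℝ) * √(r : ℝ) + q * (3 * √(r : ℝ) - q) / 4 := by ring
    rw [this, hsr]
  have h9 : 0 ≤ q * (3 * √(r : ℝ) - q) := mul_nonneg hq0.le (by linarith)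
  linarith

/-- EC-D6 -/
theorem near_nagata' (N : ℕ) : ∃ g₀ : ℕ, ∀ g ≥ g₀, ∀ m d : ℕ, 1 ≤ m →
    (d : ℝ) ≤ (√g - 1 / (g : ℝ) ^ N) * m →
    Pool.Agent.Helper41.Fat.Good ℚ g m (fun j => d + 1 - j) ((d + 2).choose 2) := by
  obtain ⟨r₀, hr₀, hnear⟩ := exists_near N
  refine ⟨r₀, fun r hr m d hm hd => ?_⟩
  obtain ⟨x, hx, hx1, hx2, -⟩ := hnear r hr
  have hsr : √(r : ℝ) * √(r : ℝ) = r := Real.mul_self_sqrt (Nat.cast_nonneg r)
  have hx0 : 0 < x := by linarith [hx.one_le]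
  have hm0 : (0 : ℝ) < m := by exact_mod_cast hm
  have h1 : (d : ℝ) < m * x := by
    refine lt_of_le_of_lt hd ?_
    rw [mul_comm]
    exact mul_lt_mul_of_pos_left hx2 hm0
  refine Pool.Agent.Helper7.Free.chain_emptyI (toChain hx) h1 ?_
  have h2 : x * d < x * (m * x) := mul_lt_mul_of_pos_left h1 hx0
  have h3 : x * (m * x) ≤ r * m := by
    have h4 : x * x ≤ √(r : ℝ) * √(r : ℝ) := mul_le_mul hx1 hx1 hx0.le (Real.sqrt_nonneg _)
    rw [hsr] at h4
    calc x * (m * x) = (x * x) * m := by ring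
      _ ≤ r * m := mul_le_mul_of_nonneg_right h4 hm0.le
  linarith

end Pool.Agent.Helper28.EC
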